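import Pool.Agent.X307.BS.Main

/-!
# The Beilinson–Soulé vanishing conjecture and the motives `h^1` of curves

All groups are rational motivic cohomology groups `H^k(M, ℚ(j))`. They are given by abstract data
with known properties: `P` is the cohomology of fields (over the base field `ℚ`), `F` is a family of
direct summands `M` of motives of smooth projective complex varieties which contains the motive of a
point, for example all smooth projective complex varieties (each of them is defined over a countable
field), and `D` is the cohomology of the motives `h^1(Y)` of the smooth projective curves `Y`.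

Theorem. (1) For each `M` in the family: `H^k(M, ℚ(j)) = 0` for all `k < 0` and all `j` if and only
if `H^(-1)(M, ℚ(j)) = 0` for all `j`.

(2) Q1 is true (`H^k(X, ℚ(j)) = 0` for all `X`, all `k < 0` and all `j`) if and only if
`H^(-1)(h^1(Y), ℚ(j)) = 0` for all smooth projective complex curves `Y` and all `j ≥ 1`.

(3) For each `n`, Q1 is true in all weights `j ≤ n` if and only if `H^k(h^1(Y), ℚ(j)) = 0` for all
smooth projective complex curves `Y`, all `k < 0` and all `j` with `1 ≤ j ≤ n`.

Proof. (1) A class `x` in `H^k(M, ℚ(j))` is the residue at `t = 0` of the class `x·{t}` in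
`H^(k+1)(M_(ℂ(t)), ℚ(j+1))`, which injects into the group over an algebraic closure of `ℂ(t)`; as `M`
is defined over a countable field `K`, and the algebraic closure of `ℂ(t)` is isomorphic to `ℂ` over
`K`, vanishing in degree `k + 1` implies vanishing in degree `k`. (2), (3) By the coniveau spectral
sequence Q1 is equivalent to vanishing for all fields of characteristic zero. Let `E` be an
algebraically closed field of transcendence degree `n + 1` over `ℚ`; it contains an algebraically
closed field `K` of transcendence degree `n`, and each class of `E` comes from the function field `L`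
of a curve `Y` over `K`. By induction on the weight the class of `L` has no residues, so it is the sum
of a class from `K`, which is zero by induction on `n`, and one from `h^1(Y)`; here `K` embeds into
`ℂ`. The case `n = 0` is Borel's theorem.
-/

set_option autoImplicit false

open Cardinal

universe u

namespace Pool.Agent.Results.MP_d72c81_ag.CurvesSuffice

open Pool.Agent.X307.BS

/-- A family of direct summands `M_i` of motives of smooth projective complex varieties, which are
defined over fields `K i` in `ℂ`: `(C i).H F k j = H^k((M_i)_F, ℚ(j))` for the fields `F` over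
`K i`. -/
structure Family where
  ι : Type u
  K : ι → Type
  [field : ∀ i, Field (K i)]
  [alg : ∀ i, Algebra (K i) ℂ]
  C : (i : ι) → Coh (K i)

attribute [instance] Family.field Family.alg

/-- The fields of definition are countable, the groups have the formal properties and the coniveau
property, and the family contains the motive of a point. -/
structure IsFamily (P : Coh ℚ) (F : Family.{u}) : Prop where
  countable : ∀ i, Countable (F.K i)
  isCoh : ∀ i, IsCoh (F.C i)
  coniveau : ∀ i, HasConiveau P (F.C i) ℂ
  point : ∃ i, ∀ (k : ℤ) (j : ℕ), Zero (F.C i) ℂ k j → Zero P ℂ k j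

/-- The theorem of Borel for the algebraic closures of `ℚ`: `H^k(ℚᵃ, ℚ(j)) = 0` for `k < 0` and
`j ≥ 1`. -/
def Borel (P : Coh ℚ) : Prop :=
  ∀ (K : Type) [Field K] [Algebra ℚ K] [IsAlgClosed K] [Algebra.IsAlgebraic ℚ K] (k : ℤ) (j : ℕ),
    k < 0 → Zero P K k (j + 1)

/-- `H^k(M_i, ℚ(j)) = 0` for all `k < 0` and all `j`. -/
def VanishingAt (F : Family.{u}) (i : F.ι) : Prop :=
  ∀ (k : ℤ) (j : ℕ), k < 0 → Zero (F.C i) ℂ k j

/-- `H^(-1)(M_i, ℚ(j)) = 0` for all `j`. -/
def DegreeMinusOneAt (F : Family.{u}) (i : F.ι) : Prop :=
  ∀ j : ℕ, Zero (F.C i) ℂ (-1) j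

/-- `H^k(M_i, ℚ(j)) = 0` for all `i`, all `k < 0` and all `j ≤ n`. -/
def VanishingUpTo (F : Family.{u}) (n : ℕ) : Prop :=
  ∀ (i : F.ι) (k : ℤ) (j : ℕ), k < 0 → j ≤ n → Zero (F.C i) ℂ k j

/-- `H^(-1)(h^1(Y), ℚ(j)) = 0` for all smooth projective complex curves `Y` and all `j ≥ 1`. -/
def DegreeMinusOneForCurves {P : Coh ℚ} (D : CurveCoh P) : Prop :=
  ∀ j : ℕ, CurvesVanish D ℂ (-1) j

/-- `H^k(h^1(Y), ℚ(j)) = 0` for all smooth projective complex curves `Y`, all `k < 0` and all `j`
with `1 ≤ j ≤ n`. -/
def CurvesUpTo {P : Coh ℚ} (D : CurveCoh P) (n : ℕ) : Prop :=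
  ∀ (k : ℤ) (j : ℕ), k < 0 → j < n → CurvesVanish D ℂ k j

/-- Q1 for the family, in all negative degrees: for a single motive; for all motives and all weights
is equivalent to degree `-1` for `h^1` of curves; weight by weight. -/
theorem result (P : Coh ℚ) (hP : IsCoh P) (hc : IsContinuous P) (hB : Borel P) (D : CurveCoh P)
    (hD : IsCurveCoh D) (F : Family.{u}) (hF : IsFamily P F) :
    (∀ i, VanishingAt F i ↔ DegreeMinusOneAt F i) ∧
    ((∀ i, VanishingAt F i) ↔ DegreeMinusOneForCurves D) ∧
    ∀ n : ℕ, VanishingUpTo F n ↔ CurvesUpTo D n := by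
  have hΩ : ℵ₀ < #ℂ := by
    rw [Cardinal.mk_complex]
    exact Cardinal.aleph0_lt_continuum
  have hbase : ∀ (K : Type) [Field K] [Algebra ℚ K] [IsAlgClosed K] [Algebra.IsAlgebraic ℚ K]
      (k : ℤ) (j : ℕ), k ≤ -1 → Zero P K k (j + 1) := fun K _ _ _ _ k j hk =>
    hB K k j (by omega)
  obtain ⟨i₀, hi₀⟩ := hF.point
  have h0 : ∀ i, ∀ k : ℤ, k < 0 → Zero (F.C i) ℂ k 0 := fun i k hk x =>
    (hF.isCoh i).weight_zero ℂ k hk x
  refine ⟨fun i => ?_, ?_, fun n => ?_⟩
  · constructor
    · exact fun h j => h (-1) j (by norm_num)
    · intro h k j hk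
      have := hF.countable i
      rcases j with _ | j
      · exact h0 i k hk
      · exact zero_of_degree (hF.isCoh i) ℂ hΩ (fun j => h (j + 1)) k (by omega) j
  · constructor
    · intro h
      refine (iff_curves hP hc hD ℂ hΩ (by norm_num) hbase).mp ?_
      exact fun k j hk => hi₀ k (j + 1) (h i₀ k (j + 1) (by omega))
    · intro h i k j hk
      rcases j with _ | j
      · exact h0 i k hk
      · have h1 := (iff_curves hP hc hD ℂ hΩ (by norm_num) hbase).mpr h
        exact zero_of_coniveau hP ℂ hΩ (m := -1) (n := j + 1) (by norm_num)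
          (fun k hk j _ => h1 k j hk) (hF.coniveau i) k (by omega) j (Nat.lt_succ_self j)
  · constructor
    · intro h k j hk hj
      refine (iff_curves_weight hP hc hD ℂ hΩ (m := -1) (by norm_num) hbase n).mp ?_ k j
        (by omega) hj
      exact fun k j hk hj => hi₀ k (j + 1) (h i₀ k (j + 1) (by omega) hj)
    · intro h i k j hk hj
      rcases j with _ | j
      · exact h0 i k hk
      · have h1 := (iff_curves_weight hP hc hD ℂ hΩ (m := -1) (by norm_num) hbase n).mpr
          (fun k j hk hj => h k j (by omega) hj)
        exact zero_of_coniveau hP ℂ hΩ (m := -1) (n := n) (by norm_num)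
          (fun k hk j hj => h1 k j hk hj) (hF.coniveau i) k (by omega) j hj

end Pool.Agent.Results.MP_d72c81_ag.CurvesSuffice
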