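import Pool.Agent.X310.RqB

/-!
# The Beilinson–Soulé conjecture for varieties with a finite group of automorphisms

Let `C` be the category of Chow motives over `ℂ` with rational coefficients, with the additive functors `H j k` (the
motivic cohomology groups `H^k(M, ℚ(j)) = CH^j(M, 2j-k)_ℚ`). `BS M` is the Beilinson–Soulé vanishing conjecture for the
motive `M`: `H^k(M, ℚ(j)) = 0` for `k < 0` and all `j`; and `BSFor j k M` is its part for one pair `j`, `k`.

Let a finite group `G` act on a smooth projective variety, with the motive `X`. For a subgroup `D` of `G` let `Q D` be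
the motive of the quotient by `D` (the direct summand of `X` cut out by the mean of the elements of `D`).

* Let the family `D i` of subgroups be rich: each irreducible `ℚ`-representation of `G` has a nonzero vector fixed by
  some `D i`. Then the conjecture holds for the variety if and only if it holds for the quotients by the `D i`, and the
  same is true for each `j` and `k` separately.
* If `G` has no irreducible representation in which only `1` has nonzero fixed vectors (so, if `G` is not a Frobenius
  complement; for example if `G` has a noncyclic subgroup of order `ℓ²` or `ℓℓ'`, `ℓ`, `ℓ'` primes), then the conjecture for the variety is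
  equivalent to the conjecture for the quotients by the elements `g ≠ 1` of `G`.
* Let `τ ∈ G`, `τ² = 1`, and let `comms τ` be generated by the `g τ g⁻¹ τ⁻¹`. The conjecture for the variety is
  equivalent to that for the quotients by `τ` and by `comms τ`; and to that for the quotient by `τ` alone, if
  `τ ∈ comms τ`, for example if `G` is a nonabelian simple group.
-/

set_option autoImplicit false

universe w v u

namespace Pool.Agent.Results.MP_d72c81_ag.QuotientsByGroups

open CategoryTheory Pool.Agent.X310.Rq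

variable {C : Type u} [Category.{v} C] [Preadditive C]

/-- `H^k(M, ℚ(j)) = 0`. -/
def BSFor (H : ℤ → ℤ → (C ⥤ ModuleCat.{w} ℚ)) (j k : ℤ) (M : C) : Prop :=
  Subsingleton ((H j k).obj M)

/-- `H^k(M, ℚ(j)) = 0` for all `j` and all `k < 0`. -/
def BS (H : ℤ → ℤ → (C ⥤ ModuleCat.{w} ℚ)) (M : C) : Prop := ∀ j k : ℤ, k < 0 → BSFor H j k M

theorem thick_for (H : ℤ → ℤ → (C ⥤ ModuleCat.{w} ℚ)) (hH : ∀ j k, (H j k).Additive) (j k : ℤ) :
    IsThick (BSFor H j k) := by
  intro X κ _ Y f g h1 hY
  exact thick_vanish (fun _ : Unit => H j k) (fun _ => hH j k) X κ Y f g h1 (fun i _ => hY i) ()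

theorem thick_all (H : ℤ → ℤ → (C ⥤ ModuleCat.{w} ℚ)) (hH : ∀ j k, (H j k).Additive) :
    IsThick (BS H) := by
  intro X κ _ Y f g h1 hY j k hk
  exact thick_for H hH j k X κ Y f g h1 fun i => hY i j k hk

theorem result [Linear ℚ C] (H : ℤ → ℤ → (C ⥤ ModuleCat.{w} ℚ)) (hH : ∀ j k, (H j k).Additive)
    {G : Type} [Group G] [Finite G] (X : C) (ρ : G →* End X) (Q : Subgroup G → C)
    (hQ : ∀ D, IsQuotientBy ρ D (Q D)) :
    (∀ (ι : Type) (D : ι → Subgroup G), IsRich D →
      (BS H X ↔ ∀ i, BS H (Q (D i))) ∧ ∀ j k, BSFor H j k X ↔ ∀ i, BSFor H j k (Q (D i))) ∧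
    (¬ HasFreeRep G → (BS H X ↔ ∀ g : G, g ≠ 1 → BS H (Q (Subgroup.zpowers g)))) ∧
    (∀ τ : G, τ * τ = 1 →
      (BS H X ↔ BS H (Q (Subgroup.zpowers τ)) ∧ BS H (Q (comms τ))) ∧
      (τ ∈ comms τ → (BS H X ↔ BS H (Q (Subgroup.zpowers τ))))) := by
  have key : ∀ (ι : Type) (D : ι → Subgroup G), IsRich D → ∀ P : C → Prop, IsThick P →
      (P X ↔ ∀ i, P (Q (D i))) := by
    intro ι D hD P hP
    exact ⟨fun h i => quot_mem ρ (D i) _ (hQ (D i)) _ hP h,
      fun h => rich_mem D hD ρ (fun i => Q (D i)) (fun i => hQ (D i)) _ hP h⟩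
  have hB := thick_all H hH
  refine ⟨fun ι D hD => ⟨key ι D hD _ hB, fun j k => key ι D hD _ (thick_for H hH j k)⟩, fun hG => ?_, fun τ hτ => ⟨?_,
    fun hm => ?_⟩⟩
  · rw [key _ _ (rich_of_not_free hG) _ hB]
    exact ⟨fun h g hg => h ⟨g, hg⟩, fun h g => h g.1 g.2⟩
  · rw [key _ _ (rich_pair hτ) _ hB]
    refine ⟨fun h => ⟨h true, h false⟩, ?_⟩
    rintro ⟨h1, h2⟩ (_ | _)
    exacts [h2, h1]
  · rw [key _ _ (rich_single hτ hm) _ hB]
    exact ⟨fun h => h (), fun h _ => h⟩

end Pool.Agent.Results.MP_d72c81_ag.QuotientsByGroups
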