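import Pool.Agent.X308.B.Main

/-!
# The Beilinson-Soulé vanishing conjecture and rational function fields

`M` is the motivic cohomology `H^i(X, ℚ(n))` with rational coefficients, in the form of a bigraded
theory of schemes with some known properties (`KnownProperties`): functoriality, injectivity for
extensions of fields, the exact sequence of Milnor type for `F ⊂ F(t)`, vanishing in negative
weights, every class over `ℂ` comes from a field which is finite over some `ℚ(t_1, …, t_m)`, the
theorem of Borel `H^0(ℚ, ℚ(n)) = 0` for `n ≥ 1`, and the vanishing criterion for smooth complex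
schemes given by the coniveau spectral sequence. Let `𝒱` be a class of smooth separated schemes of
finite type over `ℂ` which contains `Spec ℂ`, for example all smooth projective complex varieties.

Theorem. These are equivalent:
(1) `H^i(X, ℚ(n)) = 0` for all `X` in `𝒱`, all `n` and all `i < 0` (Q1);
(2) `H^i(F, ℚ(n)) = 0` for all finitely generated extension fields `F` of `ℂ`, all `n`, all
`i < 0`;
(3) `H^(-1)(ℂ, ℚ(n)) = 0` for all `n`;
(4) `H^0(ℂ, ℚ(n)) → H^0(ℂ(t), ℚ(n))` is surjective for all `n`;
(5) `H^0(ℚ(t_1, …, t_m), ℚ(n)) = 0` for all `m ≥ 0` and `n ≥ 1`.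

So Q1, in all negative degrees and for all smooth projective complex varieties, is equivalent to
the vanishing of the groups `K_(2n+1)(ℂ)^((n))`, in one degree for a point, and to the vanishing of
the groups `K_(2n)(ℚ(t_1, …, t_m))^((n))`, `n ≥ 1`, in the single degree zero.

Proof. (3) ⇒ (2): a class in `H^i(F, ℚ(n))` is the residue at `t = 0` of a class in
`H^(i+1)(F(t), ℚ(n+1))`, which gives an induction, and for `i = -1` one embeds `F` into `ℂ` (as
abstract fields). (5) ⇒ (3): a finite extension `E` of `ℚ(t_1, …, t_m)` is the residue field of a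
closed point of the affine line over `ℚ(t_1, …, t_m)`, so `H^(-1)(E, ℚ(n))` is a quotient of
`H^0(ℚ(t_1, …, t_(m+1)), ℚ(n+1))`. (3) ⇒ (5): by (3) the residues of classes in
`H^0(ℚ(t_1, …, t_(m+1)), ℚ(n))` vanish, so they come from `H^0(ℚ(t_1, …, t_m), ℚ(n))`, and one
arrives at the theorem of Borel.
-/

set_option autoImplicit false

open CategoryTheory AlgebraicGeometry

universe v

namespace Pool.Agent.Results.MP_d72c81_ag.RationalFunctionFields

open Pool.Agent.X308.B

/-- The Beilinson-Soulé vanishing for all smooth projective complex varieties in all negative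
degrees is equivalent to the vanishing in degree `-1` for `Spec ℂ`, and to the vanishing of
`H^0(ℚ(t_1, …, t_m), ℚ(n))` for `m ≥ 0`, `n ≥ 1`. -/
theorem result (M : MotivicData.{v}) (hM : KnownProperties M)
    (𝒱 : ∀ X : Scheme.{0}, (X ⟶ Spec (CommRingCat.of ℂ)) → Prop) (h𝒱 : IsClassOfSmooth 𝒱) :
    List.TFAE [VanishingOn M 𝒱, VanishingOnFields M, VanishingAtPoint M, ConstantClasses M,
      VanishingForRationalFunctions M] :=
  vanishing_iff hM h𝒱

end Pool.Agent.Results.MP_d72c81_ag.RationalFunctionFields
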